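import Mathlib
import Pool.Agent.FourExp.G.Main

set_option autoImplicit false

namespace Pool.Agent.FourExp.Old.NearOneGroup

open MvPowerSeries Finsupp Filter Topology Pool.Agent.FourExp.G

theorem result (r : ℕ) (δ A : ℝ) (hδ : 0 < δ) :
    ∃ C H₀ : ℝ, ∀ H : ℝ, H₀ ≤ H →
      ∀ (g : Fin r → ℚ) (m : Fin 2 → Fin 2 → Fin r → ℤ) (a : Fin 2 → Fin 2 → ℚ),
      (∀ k, 0 < g k) →
      (∀ k, ((g k).den : ℝ) ≤ H) →
      (∀ k, |(g k : ℝ) - 1| ≤ H ^ (-δ)) →
      (∀ i j k, |(m i j k : ℝ)| ≤ H ^ A) →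
      (∀ i j, a i j = ∏ k, g k ^ m i j k) →
      LinearIndependent ℚ (fun i : Fin 2 => fun j : Fin 2 => Real.log (a i j)) →
      LinearIndependent ℚ (fun j : Fin 2 => fun i : Fin 2 => Real.log (a i j)) →
      H ^ (-C) ≤
        |Real.log (a 0 0) * Real.log (a 1 1) - Real.log (a 0 1) * Real.log (a 1 0)| := by
  by_contra hcon
  push Not at hcon
  set B : ℝ := max A 0 with hB
  have hB0 : 0 ≤ B := le_max_right _ _
  have hseq : ∀ n : ℕ, ∃ H : ℝ, ((n:ℝ) + 2) ^ (1 / δ) + 2 ≤ H ∧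
      ∃ (g : Fin r → ℚ) (m : Fin 2 → Fin 2 → Fin r → ℤ) (a : Fin 2 → Fin 2 → ℚ),
      (∀ k, 0 < g k) ∧
      (∀ k, ((g k).den : ℝ) ≤ H) ∧
      (∀ k, |(g k : ℝ) - 1| ≤ H ^ (-δ)) ∧
      (∀ i j k, |(m i j k : ℝ)| ≤ H ^ A) ∧
      (∀ i j, a i j = ∏ k, g k ^ m i j k) ∧
      LinearIndependent ℚ (fun i : Fin 2 => fun j : Fin 2 => Real.log (a i j)) ∧
      LinearIndependent ℚ (fun j : Fin 2 => fun i : Fin 2 => Real.log (a i j)) ∧
      |Real.log (a 0 0) * Real.log (a 1 1) - Real.log (a 0 1) * Real.log (a 1 0)| <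
        H ^ (-(n:ℝ)) := by
    intro n
    obtain ⟨H, hH, g, m, a, h1, h2, h3, h4, h5, h6, h7, h8⟩ :=
      hcon (n:ℝ) (((n:ℝ) + 2) ^ (1 / δ) + 2)
    exact ⟨H, hH, g, m, a, h1, h2, h3, h4, h5, h6, h7, h8⟩
  choose H hH g m a hpos hden hclose hexp ha hrow hcol hdet using hseq
  have hH2 : ∀ n, 2 ≤ H n := by
    intro n
    have : (0:ℝ) ≤ ((n:ℝ) + 2) ^ (1 / δ) := by positivity
    linarith [hH n]
  have hH1 : ∀ n, 1 ≤ H n := fun n => by linarith [hH2 n]
  have hHpos : ∀ n, 0 < H n := fun n => by linarith [hH2 n]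
  have hεle : ∀ n, H n ^ (-δ) ≤ 1 / ((n:ℝ) + 2) := by
    intro n
    have h1 : ((n:ℝ) + 2) ≤ H n ^ δ := by
      have h2 : (((n:ℝ) + 2) ^ (1 / δ)) ^ δ ≤ H n ^ δ := by
        apply Real.rpow_le_rpow (by positivity) (by linarith [hH n]) hδ.le
      rwa [← Real.rpow_mul (by positivity), one_div_mul_cancel hδ.ne', Real.rpow_one] at h2
    rw [Real.rpow_neg (hHpos n).le, one_div]
    exact inv_anti₀ (by positivity) h1
  have hexpB : ∀ n i j k, |(m n i j k : ℝ)| ≤ H n ^ B := fun n i j k =>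
    (hexp n i j k).trans (Real.rpow_le_rpow_of_exponent_le (hH1 n) (le_max_left _ _))
  -- the scaling denominators
  let N : ℕ → ℕ := fun n => ⌈H n ^ (B + δ)⌉₊
  have hN1 : ∀ n, H n ^ (B + δ) ≤ N n := fun n => Nat.le_ceil _
  have hHB1 : ∀ n, 1 ≤ H n ^ (B + δ) := fun n =>
    Real.one_le_rpow (hH1 n) (by linarith)
  have hNpos : ∀ n, (0:ℝ) < N n := fun n => lt_of_lt_of_le one_pos ((hHB1 n).trans (hN1 n))
  have hN2 : ∀ n, (N n : ℝ) ≤ H n ^ (B + δ + 1) := by
    intro n
    have h1 : (N n : ℝ) < H n ^ (B + δ) + 1 := Nat.ceil_lt_add_one (by linarith [hHB1 n])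
    have h2 : H n ^ (B + δ + 1) = H n ^ (B + δ) * H n := by
      rw [Real.rpow_add (hHpos n), Real.rpow_one]
    rw [h2]
    nlinarith [hHB1 n, hH2 n]
  obtain ⟨Λ, hΛ⟩ := exists_nat_ge ((B + δ + 1) / δ)
  -- the variables
  let ι := Fin r ⊕ (Fin 2 × Fin 2 × Fin r)
  let σ : ι ≃ Fin (Fintype.card ι) := Fintype.equivFin ι
  let Z : ℕ → ι → ℚ := fun n => Sum.elim (fun k => g n k - 1)
    (fun x => (m n x.1 x.2.1 x.2.2 : ℚ) / N n)
  have hZle : ∀ n i, |(Z n i : ℝ)| ≤ H n ^ (-δ) := by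
    intro n i
    rcases i with k | ⟨i, j, k⟩
    · simp only [Z, Sum.elim_inl]
      push_cast
      exact hclose n k
    · simp only [Z, Sum.elim_inr]
      push_cast
      rw [abs_div, abs_of_pos (hNpos n), div_le_iff₀ (hNpos n)]
      refine (hexpB n i j k).trans ?_
      have h1 : H n ^ B = H n ^ (-δ) * H n ^ (B + δ) := by
        rw [← Real.rpow_add (hHpos n)]
        congr 1
        ring
      rw [h1]
      exact mul_le_mul_of_nonneg_left (hN1 n) (Real.rpow_nonneg (hHpos n).le _)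
  have hZden : ∀ n i, ((Z n i).den : ℝ) ≤ H n ^ (B + δ + 1) := by
    intro n i
    rcases i with k | ⟨i, j, k⟩
    · simp only [Z, Sum.elim_inl]
      have h2 := Rat.sub_den_dvd (g n k) 1
      rw [Rat.den_one, mul_one] at h2
      have h3 := Nat.le_of_dvd (Rat.den_pos _) h2
      have h4 : (((g n k - 1).den : ℕ) : ℝ) ≤ H n := le_trans (by exact_mod_cast h3) (hden n k)
      refine h4.trans ?_
      conv_lhs => rw [← Real.rpow_one (H n)]
      exact Real.rpow_le_rpow_of_exponent_le (hH1 n) (by linarith)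
    · simp only [Z, Sum.elim_inr]
      have hN0 : (N n) ≠ 0 := by
        intro h
        have := hNpos n
        rw [h] at this
        simp at this
      have h2 : (((m n i j k : ℚ) / (N n : ℚ)).den) ∣ N n := by
        have h3 := Rat.den_dvd (m n i j k) (N n : ℤ)
        rw [Rat.divInt_eq_div] at h3
        push_cast at h3
        exact_mod_cast h3
      have h3 := Nat.le_of_dvd (Nat.pos_of_ne_zero hN0) h2
      exact le_trans (by exact_mod_cast h3) (hN2 n)
  let P : Pts (Fintype.card ι) :=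
    { z := fun n i => Z n (σ.symm i)
      ε := fun n => H n ^ (-δ)
      Λ := Λ
      ε_pos := fun n => Real.rpow_pos_of_pos (hHpos n) _
      ε_le := fun n => (hεle n).trans (by
        apply one_div_le_one_div_of_le two_pos
        have : (0:ℝ) ≤ n := Nat.cast_nonneg n
        linarith)
      lim := by
        apply squeeze_zero (fun n => (Real.rpow_pos_of_pos (hHpos n) _).le) hεle
        have h1 := tendsto_one_div_add_atTop_nhds_zero_nat (𝕜 := ℝ)
        have h2 := h1.comp (tendsto_add_atTop_nat 1)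
        refine h2.congr (fun n => ?_)
        simp only [Function.comp]
        push_cast
        ring
      z_le := fun n i => hZle n _
      den_le := fun n i => by
        have h4 : (H n ^ (-δ)) ^ Λ = H n ^ (-δ * Λ) := by
          rw [Real.rpow_mul (hHpos n).le, Real.rpow_natCast]
        have h5 : H n ^ (B + δ + 1) * H n ^ (-δ * Λ) ≤ 1 := by
          rw [← Real.rpow_add (hHpos n)]
          apply Real.rpow_le_one_of_one_le_of_nonpos (hH1 n)
          rw [div_le_iff₀ hδ] at hΛ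
          nlinarith
        rw [h4]
        exact (mul_le_mul_of_nonneg_right (hZden n _)
          (Real.rpow_nonneg (hHpos n).le _)).trans h5 }
  -- the coefficients of the linear forms
  let F : Fin 2 → Fin 2 → Fin (Fintype.card ι) → MvPolynomial (Fin (Fintype.card ι)) ℚ :=
    fun i j s => Sum.elim (fun k => MvPolynomial.X (σ (Sum.inr (i, j, k)))) (fun _ => 0) (σ.symm s)
  have hlf : ∀ n i j, P.lf (F i j) n = (1 / (N n : ℝ)) * Real.log (a n i j) := by
    intro n i j
    have h1 : P.lf (F i j) n = ∑ s : ι, Pool.Agent.FourExp.G.ev (P.z n) (F i j (σ s)) *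
        Real.log (1 + (P.z n (σ s) : ℝ)) := by
      rw [Pts.lf]
      exact (Equiv.sum_comp σ (fun s => Pool.Agent.FourExp.G.ev (P.z n) (F i j s) *
        Real.log (1 + (P.z n s : ℝ)))).symm
    rw [h1, Fintype.sum_sum_type]
    have h2 : ∑ x : Fin 2 × Fin 2 × Fin r,
        Pool.Agent.FourExp.G.ev (P.z n) (F i j (σ (Sum.inr x))) *
        Real.log (1 + (P.z n (σ (Sum.inr x)) : ℝ)) = 0 := by
      apply Finset.sum_eq_zero
      intro x _
      simp only [F, Equiv.symm_apply_apply, Sum.elim_inr]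
      simp
    rw [h2, add_zero, ha n i j]
    push_cast
    have hg0 : ∀ k, (g n k : ℝ) ≠ 0 := fun k => by exact_mod_cast (hpos n k).ne'
    rw [Real.log_prod (fun k _ => zpow_ne_zero _ (hg0 k)), Finset.mul_sum]
    apply Finset.sum_congr rfl
    intro k _
    simp only [F, P, Z, Equiv.symm_apply_apply, Sum.elim_inl, Pool.Agent.FourExp.G.ev,
      MvPolynomial.eval_X, Sum.elim_inr, Real.log_zpow]
    push_cast
    have h3 : (1:ℝ) + ((g n k : ℝ) - 1) = g n k := by ring
    rw [h3]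
    ring
  obtain ⟨n, R, S, hRS, hor⟩ := P.pts_main F (by
    intro T
    obtain ⟨n₀, hn₀⟩ := exists_nat_ge (δ * T)
    have hev : ∀ᶠ n in (Pts.U : Filter ℕ), n₀ ≤ n :=
      (eventually_ge_atTop n₀).filter_mono Nat.hyperfilter_le_atTop
    filter_upwards [hev] with n hn
    have h8 := hdet n
    have h9 : H n ^ (-(n:ℝ)) ≤ (P.ε n) ^ T := by
      change _ ≤ (H n ^ (-δ)) ^ T
      rw [← Real.rpow_natCast, ← Real.rpow_mul (hHpos n).le]
      apply Real.rpow_le_rpow_of_exponent_le (hH1 n)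
      have : (n₀:ℝ) ≤ n := by exact_mod_cast hn
      linarith
    refine le_trans ?_ (h8.le.trans h9)
    rw [hlf, hlf, hlf, hlf]
    have h10 : 1 / (N n : ℝ) * Real.log (a n 0 0) * (1 / (N n : ℝ) * Real.log (a n 1 1)) -
        1 / (N n : ℝ) * Real.log (a n 0 1) * (1 / (N n : ℝ) * Real.log (a n 1 0)) =
        (1 / (N n : ℝ)) ^ 2 * (Real.log (a n 0 0) * Real.log (a n 1 1) -
          Real.log (a n 0 1) * Real.log (a n 1 0)) := by ring
    rw [h10, abs_mul, abs_of_nonneg (by positivity)]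
    have h11 : (1 / (N n : ℝ)) ^ 2 ≤ 1 := by
      apply pow_le_one₀ (by have := hNpos n; positivity)
      rw [div_le_one (hNpos n)]
      exact (hHB1 n).trans (hN1 n)
    exact mul_le_of_le_one_left (abs_nonneg _) h11)
  have hcancel : ∀ x y : ℝ, (R : ℝ) * (1 / (N n : ℝ) * x) + (S : ℝ) * (1 / (N n : ℝ) * y) = 0 →
      (R : ℝ) * x + (S : ℝ) * y = 0 := by
    intro x y h
    have h1 := hNpos n
    have h2 : (R : ℝ) * (1 / (N n : ℝ) * x) + (S : ℝ) * (1 / (N n : ℝ) * y) =
      (1 / (N n : ℝ)) * ((R : ℝ) * x + (S : ℝ) * y) := by ring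
    rw [h2] at h
    exact (mul_eq_zero.mp h).resolve_left (by positivity)
  have hfin : ∀ v : Fin 2 → Fin 2 → ℝ, LinearIndependent ℚ v →
      (∀ j, (R : ℝ) * v 0 j + (S : ℝ) * v 1 j = 0) → False := by
    intro v hv h
    have h13 := Fintype.linearIndependent_iff.mp hv (![R, S]) (by
      ext j
      simp only [Fin.sum_univ_two, Matrix.cons_val_zero, Matrix.cons_val_one, Pi.add_apply,
        Pi.smul_apply, Pi.zero_apply, Rat.smul_def]
      exact h j)
    have h14 := h13 0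
    have h15 := h13 1
    simp only [Matrix.cons_val_zero, Matrix.cons_val_one] at h14 h15
    rcases hRS with h | h
    · exact h h14
    · exact h h15
  rcases hor with h | h
  · apply hfin _ (hrow n)
    intro j
    have h1 := h j
    rw [hlf, hlf] at h1
    exact hcancel _ _ h1
  · apply hfin _ (hcol n)
    intro j
    have h1 := h j
    rw [hlf, hlf] at h1
    exact hcancel _ _ h1

end Pool.Agent.FourExp.Old.NearOneGroup
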