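import Mathlib

set_option autoImplicit false

namespace Pool.Agent.Results.MP_bbc1fa_nt.UnitFractions

open Real Set

/-- `F u = log (u + 1) - log (u - 1)`, twice the inverse hyperbolic cotangent. -/
noncomputable def F (u : ℝ) : ℝ := log (u + 1) - log (u - 1)

lemma F_hasDerivAt (u : ℝ) (hu : 1 < u) : HasDerivAt F (-2 / (u ^ 2 - 1)) u := by
  have h1 : HasDerivAt (fun x : ℝ => log (x + 1)) (1 / (u + 1)) u := by
    have := ((hasDerivAt_id u).add_const 1).log (by simp; linarith)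
    simpa using this
  have h2 : HasDerivAt (fun x : ℝ => log (x - 1)) (1 / (u - 1)) u := by
    have := ((hasDerivAt_id u).sub_const 1).log (by simp; linarith)
    simpa using this
  have h3 := h1.sub h2
  have h4 : 1 / (u + 1) - 1 / (u - 1) = -2 / (u ^ 2 - 1) := by
    have : u + 1 ≠ 0 := by linarith
    have : u - 1 ≠ 0 := by linarith
    have : u ^ 2 - 1 ≠ 0 := by nlinarith
    field_simp
    ring
  rw [h4] at h3
  exact h3

lemma F_series (u : ℝ) (hu : 1 < u) :
    HasSum (fun k : ℕ => (2:ℝ) * (1 / (2 * k + 1)) * (1 / u) ^ (2 * k + 1)) (F u) := by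
  have hx : |1 / u| < 1 := by
    rw [abs_of_pos (by positivity)]
    rw [div_lt_one (by linarith)]
    exact hu
  have h := Real.hasSum_log_sub_log_of_abs_lt_one hx
  have h1 : log (1 + 1 / u) - log (1 - 1 / u) = F u := by
    have hu0 : 0 < u := by linarith
    have e1 : 1 + 1 / u = (u + 1) / u := by field_simp
    have e2 : 1 - 1 / u = (u - 1) / u := by field_simp
    rw [e1, e2, log_div (by linarith) (by linarith), log_div (by linarith) (by linarith), F]
    ring
  rw [h1] at h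
  exact h

lemma F_lower (u : ℝ) (hu : 1 < u) : 2 / u < F u := by
  have h := F_series u hu
  have h1 := sum_le_hasSum (Finset.range 2) (fun i _ => by positivity) h
  have hu0 : 0 < u := by linarith
  rw [Finset.sum_range_succ, Finset.sum_range_one] at h1
  simp only [Nat.cast_zero, mul_zero, zero_add, Nat.cast_one, mul_one] at h1
  have h2 : (0:ℝ) < 2 * (1 / (2 + 1)) * (1 / u) ^ (2 + 1) := by positivity
  have h3 : (2:ℝ) * (1 / 1) * (1 / u) ^ 1 = 2 / u := by field_simp
  rw [h3] at h1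
  linarith

lemma F_upper_aux (u : ℝ) (hu : 1 < u) :
    F u ≤ 2 / 7 * (1 / u) * (1 - (1 / u) ^ 2)⁻¹ + 12 / 7 * (1 / u) + 8 / 21 * (1 / u) ^ 3 +
      4 / 35 * (1 / u) ^ 5 := by
  have h := F_series u hu
  set x : ℝ := 1 / u with hx
  have hx0 : 0 < x := by positivity
  have hx1 : x < 1 := by
    rw [hx, div_lt_one (by linarith)]; exact hu
  have hx2 : x ^ 2 < 1 := by nlinarith
  have hgeo : HasSum (fun k : ℕ => 2 / 7 * x * (x ^ 2) ^ k) (2 / 7 * x * (1 - x ^ 2)⁻¹) :=
    (hasSum_geometric_of_lt_one (by positivity) hx2).mul_left _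
  have h0 : HasSum (fun k : ℕ => if k = 0 then 12 / 7 * x else 0) (12 / 7 * x) :=
    hasSum_ite_eq 0 _
  have h1 : HasSum (fun k : ℕ => if k = 1 then 8 / 21 * x ^ 3 else 0) (8 / 21 * x ^ 3) :=
    hasSum_ite_eq 1 _
  have h2 : HasSum (fun k : ℕ => if k = 2 then 4 / 35 * x ^ 5 else 0) (4 / 35 * x ^ 5) :=
    hasSum_ite_eq 2 _
  have hall := ((hgeo.add h0).add h1).add h2
  refine hasSum_le (fun k => ?_) h hall
  rcases k with _ | _ | _ | k
  · norm_num
    linarith
  · norm_num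
    apply le_of_eq
    ring
  · norm_num
    apply le_of_eq
    ring
  · have e1 : ((k + 1 + 1 + 1 : ℕ) : ℝ) = k + 3 := by push_cast; ring
    rw [e1]
    simp only [Nat.add_eq_zero_iff, one_ne_zero, and_false, if_false,
      show ¬ (k + 1 + 1 + 1 = 1) by omega, show ¬ (k + 1 + 1 + 1 = 2) by omega, add_zero]
    have e2 : x ^ (2 * (k + 1 + 1 + 1) + 1) = x * (x ^ 2) ^ (k + 1 + 1 + 1) := by
      rw [← pow_mul]; ring
    rw [e2, ← mul_assoc]
    apply mul_le_mul_of_nonneg_right _ (by positivity)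
    apply mul_le_mul_of_nonneg_right _ hx0.le
    have : (0:ℝ) ≤ k := Nat.cast_nonneg k
    rw [mul_one_div, div_le_div_iff₀ (by positivity) (by norm_num)]
    nlinarith

lemma F_upper (u : ℝ) (hu : 3 ≤ u) :
    F u ≤ 2 / (u - 1 / (3 * u) - 1 / (10 * u ^ 3)) := by
  refine (F_upper_aux u (by linarith)).trans ?_
  have hu0 : 0 < u := by linarith
  have hu2 : 9 ≤ u ^ 2 := by nlinarith
  have hu21 : (0:ℝ) < u ^ 2 - 1 := by linarith
  have e1 : (1 - (1 / u) ^ 2)⁻¹ = u ^ 2 / (u ^ 2 - 1) := by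
    rw [inv_eq_iff_eq_inv, inv_div]
    field_simp
  have e2 : u - 1 / (3 * u) - 1 / (10 * u ^ 3) = (30 * u ^ 4 - 10 * u ^ 2 - 3) / (30 * u ^ 3) := by
    field_simp
    ring
  have hden : (0:ℝ) < 30 * u ^ 4 - 10 * u ^ 2 - 3 := by nlinarith
  rw [e1, e2, div_div_eq_mul_div, le_div_iff₀ hden]
  have e3 : (2 / 7 * (1 / u) * (u ^ 2 / (u ^ 2 - 1)) + 12 / 7 * (1 / u) + 8 / 21 * (1 / u) ^ 3 +
      4 / 35 * (1 / u) ^ 5) = (210 * u ^ 6 - 140 * u ^ 4 - 28 * u ^ 2 - 12) / (105 * u ^ 5 * (u ^ 2 - 1)) := by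
    field_simp
    ring
  rw [e3, div_mul_eq_mul_div, div_le_iff₀ (by positivity)]
  have e4 : 2 * (30 * u ^ 3) * (105 * u ^ 5 * (u ^ 2 - 1)) -
      (210 * u ^ 6 - 140 * u ^ 4 - 28 * u ^ 2 - 12) * (30 * u ^ 4 - 10 * u ^ 2 - 3) =
      70 * (u ^ 2) ^ 3 - 340 * (u ^ 2) ^ 2 - 204 * u ^ 2 - 36 := by
    ring
  have e5 : 0 ≤ 70 * (u ^ 2) ^ 3 - 340 * (u ^ 2) ^ 2 - 204 * u ^ 2 - 36 := by
    nlinarith [mul_nonneg (sub_nonneg.mpr hu2) (sq_nonneg (u ^ 2)), sq_nonneg (u ^ 2 - 9)]
  linarith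

/-- `K u = (u - 1/u) F u` is increasing. -/
lemma K_lt (v u : ℝ) (hv : 1 < v) (hvu : v < u) :
    (v - 1 / v) * F v < (u - 1 / u) * F u := by
  have hmono : StrictMonoOn (fun x : ℝ => (x - 1 / x) * F x) (Ioi 1) := by
    apply strictMonoOn_of_deriv_pos (convex_Ioi 1)
    · intro x hx
      have hx' : 1 < x := hx
      apply ContinuousAt.continuousWithinAt
      have h1 := (F_hasDerivAt x hx').continuousAt
      have h2 : ContinuousAt (fun x : ℝ => x - 1 / x) x := by
        apply ContinuousAt.sub continuousAt_id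
        exact ContinuousAt.div continuousAt_const continuousAt_id (by positivity)
      exact h2.mul h1
    · intro x hx
      rw [interior_Ioi] at hx
      have hx' : 1 < x := hx
      have hx0 : 0 < x := by linarith
      have h1 := F_hasDerivAt x hx'
      have h2 : HasDerivAt (fun x : ℝ => x - 1 / x) (1 + 1 / x ^ 2) x := by
        have h3 := (hasDerivAt_id x).sub (hasDerivAt_inv hx0.ne')
        have h4 : (id - fun y : ℝ => y⁻¹) = fun x : ℝ => x - 1 / x := by
          ext y; simp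
        have h5 : (1 : ℝ) - -(x ^ 2)⁻¹ = 1 + 1 / x ^ 2 := by rw [one_div]; ring
        rw [h5, h4] at h3
        exact h3
      have h3 := h2.mul h1
      have h4 : deriv (fun x : ℝ => (x - 1 / x) * F x) x =
          (1 + 1 / x ^ 2) * F x + (x - 1 / x) * (-2 / (x ^ 2 - 1)) := h3.deriv
      rw [h4]
      have h5 := F_lower x hx'
      have h6 : (x - 1 / x) * (-2 / (x ^ 2 - 1)) = - (2 / x) := by
        have : x ^ 2 - 1 ≠ 0 := by nlinarith
        field_simp
      rw [h6]
      have h7 : 0 < 1 / x ^ 2 := by positivity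
      have h8 : 0 < F x := lt_trans (by positivity) h5
      nlinarith
  exact hmono (show v ∈ Ioi 1 from hv) (show u ∈ Ioi 1 from hv.trans hvu) hvu

/-- For a fixed product, `F u * F v` grows with the spread. -/
lemma spread (P u u' : ℝ) (hu' : 1 < u') (h1 : u' < u) (h2 : P ≤ u' ^ 2) (h3 : u < P) :
    F u' * F (P / u') < F u * F (P / u) := by
  have hmono : StrictMonoOn (fun x : ℝ => F x * F (P / x)) (Icc u' u) := by
    apply strictMonoOn_of_deriv_pos (convex_Icc _ _)
    · intro x hx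
      have hx1 : 1 < x := lt_of_lt_of_le hu' hx.1
      have hx2 : 1 < P / x := by
        rw [lt_div_iff₀ (by linarith)]; linarith [hx.2]
      apply ContinuousAt.continuousWithinAt
      have e1 := (F_hasDerivAt x hx1).continuousAt
      have e2 := (F_hasDerivAt (P / x) hx2).continuousAt
      have e3 : ContinuousAt (fun x : ℝ => P / x) x :=
        ContinuousAt.div continuousAt_const continuousAt_id (by positivity)
      exact e1.mul (ContinuousAt.comp (f := fun x : ℝ => P / x) (g := F) e2 e3)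
    · intro x hx
      rw [interior_Icc] at hx
      have hx1 : 1 < x := hu'.trans hx.1
      have hx0 : 0 < x := by linarith
      have hx2 : 1 < P / x := by
        rw [lt_div_iff₀ (by linarith)]; linarith [hx.2]
      have e1 := F_hasDerivAt x hx1
      have e2 := F_hasDerivAt (P / x) hx2
      have e3 : HasDerivAt (fun x : ℝ => P / x) (-P / x ^ 2) x := by
        have h8 := (hasDerivAt_inv hx0.ne').const_mul P
        have h9 : (fun y : ℝ => P * y⁻¹) = fun x : ℝ => P / x := by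
          ext y; rw [div_eq_mul_inv]
        rw [h9] at h8
        have h10 : P * -(x ^ 2)⁻¹ = -P / x ^ 2 := by
          rw [div_eq_mul_inv]; ring
        rw [h10] at h8
        exact h8
      have e4 := e1.mul (HasDerivAt.comp x e2 e3)
      have e5 : deriv (fun x : ℝ => F x * F (P / x)) x =
          -2 / (x ^ 2 - 1) * F (P / x) + F x * (-2 / ((P / x) ^ 2 - 1) * (-P / x ^ 2)) := e4.deriv
      rw [e5]
      have hlt : P / x < x := by
        rw [div_lt_iff₀ hx0]
        nlinarith [hx.1]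
      have hK := K_lt (P / x) x hx2 hlt
      obtain ⟨v, hv⟩ : ∃ v : ℝ, v = P / x := ⟨_, rfl⟩
      rw [← hv] at hK hlt hx2 ⊢
      have hv0 : 0 < v := by linarith
      have hP : P = v * x := by rw [hv]; field_simp
      have e6 : -2 / (x ^ 2 - 1) * F v + F x * (-2 / (v ^ 2 - 1) * (-P / x ^ 2)) =
          2 * v / ((x ^ 2 - 1) * (v ^ 2 - 1)) * ((x - 1 / x) * F x - (v - 1 / v) * F v) := by
        have hx3 : x ^ 2 - 1 ≠ 0 := by nlinarith
        have hv3 : v ^ 2 - 1 ≠ 0 := by nlinarith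
        rw [hP]
        field_simp
        ring
      rw [e6]
      apply mul_pos
      · apply div_pos (by positivity)
        apply mul_pos <;> nlinarith
      · linarith
  exact hmono (left_mem_Icc.mpr h1.le) (right_mem_Icc.mpr h1.le) h1

/-- The defect `u v - 4 / (F u F v)` is positive and less than `2` for comparable `u, v`. -/
lemma defect (u v : ℝ) (hu : 3 ≤ u) (hv : 3 ≤ v) (huv : u ≤ 28 / 5 * v) (hvu : v ≤ 28 / 5 * u) :
    0 < u * v - 4 / (F u * F v) ∧ u * v - 4 / (F u * F v) < 2 := by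
  have hu0 : 0 < u := by linarith
  have hv0 : 0 < v := by linarith
  have hFu := F_lower u (by linarith)
  have hFv := F_lower v (by linarith)
  have hFu0 : 0 < F u := lt_trans (by positivity) hFu
  have hFv0 : 0 < F v := lt_trans (by positivity) hFv
  have e : 4 / (F u * F v) = (2 / F u) * (2 / F v) := by field_simp; norm_num
  have hb1 : 2 / F u < u := by
    rw [div_lt_iff₀ hFu0]
    rw [div_lt_iff₀ hu0] at hFu
    linarith
  have hb2 : 2 / F v < v := by
    rw [div_lt_iff₀ hFv0]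
    rw [div_lt_iff₀ hv0] at hFv
    linarith
  have low : ∀ x : ℝ, 3 ≤ x → x - 1 / (3 * x) - 1 / (10 * x ^ 3) ≤ 2 / F x := by
    intro x hx
    have hx0 : 0 < x := by linarith
    have hFx0 : 0 < F x := lt_trans (by positivity) (F_lower x (by linarith))
    have h1 := F_upper x hx
    have h2 : 0 < x - 1 / (3 * x) - 1 / (10 * x ^ 3) := by
      have e2 : x - 1 / (3 * x) - 1 / (10 * x ^ 3) =
          (30 * x ^ 4 - 10 * x ^ 2 - 3) / (30 * x ^ 3) := by
        field_simp
        ring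
      rw [e2]
      apply div_pos _ (by positivity)
      nlinarith [sq_nonneg (x ^ 2 - 9)]
    rw [le_div_iff₀ hFx0]
    rw [le_div_iff₀ h2] at h1
    linarith
  have hc1 := low u hu
  have hc2 := low v hv
  have hp1 : 0 < 2 / F u := by positivity
  have hp2 : 0 < 2 / F v := by positivity
  rw [e]
  refine ⟨by nlinarith, ?_⟩
  -- `uv - BC ≤ v (u - B) + u (v - C)`
  have h1 : u * v - 2 / F u * (2 / F v) ≤ v * (1 / (3 * u) + 1 / (10 * u ^ 3)) +
      u * (1 / (3 * v) + 1 / (10 * v ^ 3)) := by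
    have h2 : u * v - 2 / F u * (2 / F v) = v * (u - 2 / F u) + (2 / F u) * (v - 2 / F v) := by ring
    rw [h2]
    apply add_le_add
    · apply mul_le_mul_of_nonneg_left _ hv0.le
      linarith
    · apply mul_le_mul hb1.le _ (by linarith) hu0.le
      linarith
  refine lt_of_le_of_lt h1 ?_
  -- reduce to an inequality in `r = v / u`
  have h3 : v * (1 / (3 * u) + 1 / (10 * u ^ 3)) = (v / u) * (1 / 3 + 1 / (10 * u ^ 2)) := by
    field_simp
  have h4 : u * (1 / (3 * v) + 1 / (10 * v ^ 3)) = (u / v) * (1 / 3 + 1 / (10 * v ^ 2)) := by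
    field_simp
  have h5 : 1 / (10 * u ^ 2) ≤ 1 / 90 := by
    apply one_div_le_one_div_of_le (by norm_num)
    nlinarith
  have h6 : 1 / (10 * v ^ 2) ≤ 1 / 90 := by
    apply one_div_le_one_div_of_le (by norm_num)
    nlinarith
  rw [h3, h4]
  have h7 : (v / u) * (1 / 3 + 1 / (10 * u ^ 2)) ≤ (v / u) * (31 / 90) := by
    apply mul_le_mul_of_nonneg_left _ (by positivity)
    linarith
  have h8 : (u / v) * (1 / 3 + 1 / (10 * v ^ 2)) ≤ (u / v) * (31 / 90) := by
    apply mul_le_mul_of_nonneg_left _ (by positivity)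
    linarith
  have h9 : v / u + u / v < 180 / 31 := by
    have e3 : v / u + u / v = (v ^ 2 + u ^ 2) / (u * v) := by field_simp
    rw [e3, div_lt_iff₀ (by positivity)]
    nlinarith [mul_nonneg (sub_nonneg.mpr huv) (sub_nonneg.mpr hvu), mul_pos hu0 hv0]
  nlinarith

lemma core (u v u' v' : ℕ) (hu : 3 ≤ u) (hv : 3 ≤ v) (hu' : 3 ≤ u') (hv' : 3 ≤ v')
    (ou : Odd u) (ov : Odd v) (ou' : Odd u') (ov' : Odd v')
    (h1 : (u : ℝ) ≤ 28 / 5 * v) (h2 : (v : ℝ) ≤ 28 / 5 * u)
    (h3 : (u' : ℝ) ≤ 28 / 5 * v') (h4 : (v' : ℝ) ≤ 28 / 5 * u')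
    (hrel : F u * F v = F u' * F v') (hvu : v ≤ u) (hvu' : v' ≤ u') : u = u' ∧ v = v' := by
  have c : ∀ n : ℕ, 3 ≤ n → (3 : ℝ) ≤ n := fun n hn => by exact_mod_cast hn
  obtain ⟨d1, d2⟩ := defect u v (c u hu) (c v hv) h1 h2
  obtain ⟨d3, d4⟩ := defect u' v' (c u' hu') (c v' hv') h3 h4
  rw [hrel] at d1 d2
  -- products agree
  have hprod : u * v = u' * v' := by
    have e1 : ((u : ℝ) * v - u' * v') < 2 := by linarith
    have e2 : -2 < ((u : ℝ) * v - u' * v') := by linarith
    have e3 : ((u * v : ℕ) : ℤ) - ((u' * v' : ℕ) : ℤ) < 2 := by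
      have : (((u * v : ℕ) : ℤ) - ((u' * v' : ℕ) : ℤ) : ℝ) < 2 := by push_cast; exact e1
      exact_mod_cast this
    have e4 : -2 < ((u * v : ℕ) : ℤ) - ((u' * v' : ℕ) : ℤ) := by
      have : (-2 : ℝ) < (((u * v : ℕ) : ℤ) - ((u' * v' : ℕ) : ℤ) : ℝ) := by push_cast; exact e2
      exact_mod_cast this
    have o1 : Odd (u * v) := ou.mul ov
    have o2 : Odd (u' * v') := ou'.mul ov'
    obtain ⟨k, hk⟩ := o1
    obtain ⟨l, hl⟩ := o2
    omega
  have hP : (u : ℝ) * v = u' * v' := by exact_mod_cast hprod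
  have hu0 : (0:ℝ) < u := by linarith [c u hu]
  have hu0' : (0:ℝ) < u' := by linarith [c u' hu']
  rcases lt_trichotomy u u' with h | h | h
  · exfalso
    have hlt : (u : ℝ) < u' := by exact_mod_cast h
    have := spread ((u : ℝ) * v) u' u (by linarith [c u hu]) hlt (by
      have : (v : ℝ) ≤ u := by exact_mod_cast hvu
      nlinarith) (by
      rw [hP]
      nlinarith [c v' hv'])
    have e1 : (u : ℝ) * v / u = v := by field_simp
    have e2 : (u : ℝ) * v / u' = v' := by rw [hP]; field_simp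
    rw [e1, e2, hrel] at this
    exact lt_irrefl _ this
  · subst h
    exact ⟨rfl, Nat.eq_of_mul_eq_mul_left (by omega) hprod⟩
  · exfalso
    have hlt : (u' : ℝ) < u := by exact_mod_cast h
    have := spread ((u' : ℝ) * v') u u' (by linarith [c u' hu']) hlt (by
      have : (v' : ℝ) ≤ u' := by exact_mod_cast hvu'
      nlinarith) (by
      rw [← hP]
      nlinarith [c v hv])
    have e1 : (u' : ℝ) * v' / u' = v' := by field_simp
    have e2 : (u' : ℝ) * v' / u = v := by rw [← hP]; field_simp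
    rw [e1, e2, hrel] at this
    exact lt_irrefl _ this

lemma log_eq (n : ℕ) (hn : 1 ≤ n) : log (1 + 1 / (n : ℝ)) = F ((2 * n + 1 : ℕ) : ℝ) := by
  have hn0 : (0:ℝ) < n := by exact_mod_cast hn
  rw [F]
  push_cast
  rw [← log_div (by positivity) (by linarith)]
  congr 1
  field_simp
  ring

theorem result (n : Fin 2 → Fin 2 → ℕ) (hn : ∀ i j, 1 ≤ n i j)
    (h1 : 5 * (2 * n 0 0 + 1) ≤ 28 * (2 * n 1 1 + 1))
    (h2 : 5 * (2 * n 1 1 + 1) ≤ 28 * (2 * n 0 0 + 1))
    (h3 : 5 * (2 * n 0 1 + 1) ≤ 28 * (2 * n 1 0 + 1))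
    (h4 : 5 * (2 * n 1 0 + 1) ≤ 28 * (2 * n 0 1 + 1))
    (hdet : log (1 + 1 / (n 0 0 : ℝ)) * log (1 + 1 / (n 1 1 : ℝ)) =
      log (1 + 1 / (n 0 1 : ℝ)) * log (1 + 1 / (n 1 0 : ℝ))) :
    (∀ i, n i 0 = n i 1) ∨ (∀ j, n 0 j = n 1 j) := by
  rw [log_eq _ (hn _ _), log_eq _ (hn _ _), log_eq _ (hn _ _), log_eq _ (hn _ _)] at hdet
  have odd : ∀ i j, Odd (2 * n i j + 1) := fun i j => ⟨n i j, rfl⟩
  have three : ∀ i j, 3 ≤ 2 * n i j + 1 := fun i j => by have := hn i j; omega
  have cv : ∀ a b : ℕ, 5 * a ≤ 28 * b → (a : ℝ) ≤ 28 / 5 * b := by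
    intro a b h
    have : (5 : ℝ) * a ≤ 28 * b := by exact_mod_cast h
    linarith
  rcases le_total (n 1 1) (n 0 0) with g1 | g1 <;> rcases le_total (n 1 0) (n 0 1) with g2 | g2
  · obtain ⟨r1, r2⟩ := core _ _ _ _ (three 0 0) (three 1 1) (three 0 1) (three 1 0)
      (odd _ _) (odd _ _) (odd _ _) (odd _ _) (cv _ _ h1) (cv _ _ h2) (cv _ _ h3) (cv _ _ h4)
      hdet (by omega) (by omega)
    left
    intro i
    fin_cases i
    · show n 0 0 = n 0 1
      omega
    · show n 1 0 = n 1 1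
      omega
  · obtain ⟨r1, r2⟩ := core _ _ _ _ (three 0 0) (three 1 1) (three 1 0) (three 0 1)
      (odd _ _) (odd _ _) (odd _ _) (odd _ _) (cv _ _ h1) (cv _ _ h2) (cv _ _ h4) (cv _ _ h3)
      (by rw [hdet, mul_comm]) (by omega) (by omega)
    right
    intro j
    fin_cases j
    · show n 0 0 = n 1 0
      omega
    · show n 0 1 = n 1 1
      omega
  · obtain ⟨r1, r2⟩ := core _ _ _ _ (three 1 1) (three 0 0) (three 0 1) (three 1 0)
      (odd _ _) (odd _ _) (odd _ _) (odd _ _) (cv _ _ h2) (cv _ _ h1) (cv _ _ h3) (cv _ _ h4)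
      (by rw [← hdet, mul_comm]) (by omega) (by omega)
    right
    intro j
    fin_cases j
    · show n 0 0 = n 1 0
      omega
    · show n 0 1 = n 1 1
      omega
  · obtain ⟨r1, r2⟩ := core _ _ _ _ (three 1 1) (three 0 0) (three 1 0) (three 0 1)
      (odd _ _) (odd _ _) (odd _ _) (odd _ _) (cv _ _ h2) (cv _ _ h1) (cv _ _ h4) (cv _ _ h3)
      (by rw [mul_comm, hdet, mul_comm]) (by omega) (by omega)
    left
    intro i
    fin_cases i
    · show n 0 0 = n 0 1
      omega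
    · show n 1 0 = n 1 1
      omega

end Pool.Agent.Results.MP_bbc1fa_nt.UnitFractions
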